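import Pool.Agent.Lib.MP_28bef0_nt.GBGlue

set_option autoImplicit false

open Classical Finset

namespace Pool.Agent.Results.MP_28bef0_nt.GrowingBlocks

open Pool.Agent.Lib.MP_28bef0_nt.GB

/-- **Short blocks do not force density zero.** There is a strictly increasing sequence of positive integers
which contains at least `N / 24` of the integers in `[1, N]` for arbitrarily large `N`, and in which the sums over
distinct blocks of consecutive terms are different as long as the number of terms of each block is at most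
`log (last term) / 60`. -/
theorem result :
    ∃ a : ℕ → ℕ, StrictMono a ∧ (∀ n, 0 < a n) ∧
      (∀ N₀ : ℕ, ∃ N ≥ N₀,
        (N : ℝ) / 24 ≤ ((Finset.Icc 1 N).filter (fun n => n ∈ Set.range a)).card) ∧
      ∀ i j k l : ℕ, i < j → k < l →
        ((j - i : ℕ) : ℝ) ≤ Real.log (a (j - 1)) / 60 →
        ((l - k : ℕ) : ℝ) ≤ Real.log (a (l - 1)) / 60 →
        ∑ m ∈ Finset.Ico i j, a m = ∑ m ∈ Finset.Ico k l, a m → i = k ∧ j = l := by
  obtain ⟨a, ha, hpos, hdens, hblk⟩ := growing
  refine ⟨a, ha, hpos, fun N₀ => ?_, hblk⟩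
  obtain ⟨N, hN, P, hP, hcard⟩ := hdens N₀
  refine ⟨N, hN, ?_⟩
  have h1 : P.card ≤ ((Finset.Icc 1 N).filter (fun n => n ∈ Set.range a)).card := by
    refine card_le_card fun z hz => ?_
    rw [mem_filter]
    exact hP z hz
  have h2 : (N : ℝ) ≤ 24 * (P.card : ℝ) := by exact_mod_cast hcard
  have h3 : (P.card : ℝ) ≤ (((Finset.Icc 1 N).filter (fun n => n ∈ Set.range a)).card : ℝ) := by
    exact_mod_cast h1
  linarith

end Pool.Agent.Results.MP_28bef0_nt.GrowingBlocks
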