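import Pool.Agent.Lib.MP_28bef0_nt.Below

set_option autoImplicit false

open Classical Finset

namespace Pool.Agent.Results.MP_28bef0_nt.UpperDensityHalf

open Pool.Agent.Lib.MP_28bef0_nt

/-- **Upper density less than one half.** If a strictly increasing sequence of positive integers has all sums
over distinct nonempty blocks of consecutive terms pairwise different, then at most
`(1 / 2 - 1 / 168) N + 7 √N` of the integers in `[1, N]` are terms of the sequence; at most `N / 2 + 4 √N` of them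
are terms of the sequence (this is the better bound for `N` up to `2 * 10 ^ 5`). -/
theorem result :
    ∀ a : ℕ → ℕ, StrictMono a → (∀ n, 0 < a n) →
      (∀ i j k l : ℕ, i < j → k < l →
        ∑ m ∈ Finset.Ico i j, a m = ∑ m ∈ Finset.Ico k l, a m → i = k ∧ j = l) →
      ∀ N : ℕ, (((Finset.Icc 1 N).filter (fun n => n ∈ Set.range a)).card : ℝ) ≤
          (1 / 2 - 1 / 168) * N + 7 * Real.sqrt N ∧
        (((Finset.Icc 1 N).filter (fun n => n ∈ Set.range a)).card : ℝ) ≤
          (N : ℝ) / 2 + 4 * Real.sqrt N := by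
  intro a ha hpos hd N
  rw [card_eq ha hpos]
  rcases Nat.eq_zero_or_pos N with hN | hN
  · subst hN
    rw [cnt_zero hpos]
    simp
  have hs1 : (1 : ℝ) ≤ Real.sqrt N := by
    rw [Real.one_le_sqrt]; exact_mod_cast hN
  set J := Nat.log 2 (Nat.sqrt N) with hJ
  have hsq : 0 < Nat.sqrt N := Nat.sqrt_pos.2 hN
  have h1 : 2 ^ J ≤ Nat.sqrt N := Nat.pow_log_le_self 2 (by omega)
  have h2 : Nat.sqrt N < 2 ^ (J + 1) := Nat.lt_pow_succ_log_self (by norm_num) _
  have h3 : ((2 : ℝ) ^ J) ≤ Real.sqrt N := by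
    have : ((Nat.sqrt N : ℕ) : ℝ) ≤ Real.sqrt N := Real.nat_sqrt_le_real_sqrt
    have h4 : ((2 : ℝ) ^ J) ≤ ((Nat.sqrt N : ℕ) : ℝ) := by exact_mod_cast h1
    linarith
  have h4 : Real.sqrt N ≤ 2 * 2 ^ J := by
    have h5 : Real.sqrt N < (Nat.sqrt N : ℕ) + 1 := Real.real_sqrt_lt_nat_sqrt_succ
    have h6 : ((Nat.sqrt N : ℕ) : ℝ) + 1 ≤ 2 * 2 ^ J := by
      have : Nat.sqrt N + 1 ≤ 2 * 2 ^ J := by rw [pow_succ] at h2; omega
      exact_mod_cast this
    linarith
  have h6 : (N : ℝ) / 2 ^ J ≤ 2 * Real.sqrt N := by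
    rw [div_le_iff₀ (by positivity)]
    have h7 : (N : ℝ) = Real.sqrt N * Real.sqrt N := (Real.mul_self_sqrt (by positivity)).symm
    nlinarith
  have h5 := cnt_le_half ha hd hpos J N
  have h7 := cnt_le_below ha hd hpos N
  exact ⟨by linarith, by linarith⟩

end Pool.Agent.Results.MP_28bef0_nt.UpperDensityHalf
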